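import Mathlib
import Pool.Agent.Lib.MP_1024aa_co.Zone8

/-!
The biased clique game in which Player 1 claims one edge and Player 2 two edges per turn is a
Player 2 win on `K_n` for every `n ≥ 51`.
-/

set_option autoImplicit false

open Pool.Agent.Lib.MP_1024aa_co

namespace Pool.Agent.Variants.MP_1024aa_co.From51

theorem result :
    ∀ n : ℕ, 51 ≤ n →
    ∀ E : Finset (Sym2 (Fin n)), (∀ e : Sym2 (Fin n), e ∈ E ↔ ¬ e.IsDiag) →
    ∃ S : Set (Finset (Sym2 (Fin n)) × Finset (Sym2 (Fin n))),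
      ((∅ : Finset (Sym2 (Fin n))), (∅ : Finset (Sym2 (Fin n)))) ∈ S ∧
      ∀ p ∈ S,
        (p.1 ∪ p.2 = E →
          ∃ k : ℕ, ¬ (SimpleGraph.fromEdgeSet (p.2 : Set (Sym2 (Fin n)))).CliqueFree k ∧
            (SimpleGraph.fromEdgeSet (p.1 : Set (Sym2 (Fin n)))).CliqueFree k) ∧
        (∀ e ∈ E, e ∉ p.1 → e ∉ p.2 →
          (insert e p.1 ∪ p.2 = E →
            ∃ k : ℕ, ¬ (SimpleGraph.fromEdgeSet (p.2 : Set (Sym2 (Fin n)))).CliqueFree k ∧
              (SimpleGraph.fromEdgeSet ((insert e p.1 : Finset (Sym2 (Fin n))) :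
                Set (Sym2 (Fin n)))).CliqueFree k) ∧
          (insert e p.1 ∪ p.2 ≠ E →
            ∃ T : Finset (Sym2 (Fin n)), T ⊆ E ∧ Disjoint T (insert e p.1 ∪ p.2) ∧
              T.card = min 2 (E.card - (insert e p.1 ∪ p.2).card) ∧
              (insert e p.1, p.2 ∪ T) ∈ S)) :=
  fun n hn E hE => strat_ge_51 n hn E hE

end Pool.Agent.Variants.MP_1024aa_co.From51
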